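import Pool.Agent.Helper43.CR.Defs

/-!
Piece CR-11: a Borel set meeting orbits in finite sets contains a Borel transversal of its
saturation.
-/

set_option autoImplicit false

open Set Topology Filter TopologicalSpace

namespace Pool.Agent.Helper59.CR

/-- A Borel set meeting orbits in finite sets contains a Borel transversal of its saturation. -/
theorem exists_transversal (Γ Y : Type) [Group Γ] [Countable Γ] [MeasurableSpace Y]
    [StandardBorelSpace Y] [MulAction Γ Y] (hm : ∀ g : Γ, Measurable (fun x : Y => g • x))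
    (D : Set Y) (hD : MeasurableSet D)
    (hfin : ∀ x ∈ D, (MulAction.orbit Γ x ∩ D).Finite) :
    ∃ T ⊆ D, MeasurableSet T ∧ ∀ x ∈ D, ∃! t, t ∈ T ∧ t ∈ MulAction.orbit Γ x := by
  have hι := MeasureTheory.measurableEmbedding_embeddingReal Y
  set ι : Y → ℝ := MeasureTheory.embeddingReal Y with hιdef
  refine ⟨{y | y ∈ D ∧ ∀ g : Γ, g • y ∈ D → ι y ≤ ι (g • y)}, fun y hy => hy.1, ?_, ?_⟩
  · have h1 : {y | y ∈ D ∧ ∀ g : Γ, g • y ∈ D → ι y ≤ ι (g • y)}
        = D ∩ ⋂ g : Γ, ((fun y => g • y) ⁻¹' Dᶜ ∪ {y | ι y ≤ ι (g • y)}) := by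
      ext y
      simp only [mem_ofPred_eq, mem_inter_iff, mem_iInter, mem_union, mem_preimage,
        mem_compl_iff]
      constructor
      · rintro ⟨h, h'⟩
        refine ⟨h, fun g => ?_⟩
        by_cases hg : g • y ∈ D
        · exact Or.inr (h' g hg)
        · exact Or.inl hg
      · rintro ⟨h, h'⟩
        refine ⟨h, fun g hg => ?_⟩
        rcases h' g with h2 | h2
        · exact absurd hg h2
        · exact h2
    rw [h1]
    refine hD.inter (MeasurableSet.iInter fun g => ?_)
    exact ((hm g) hD.compl).union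
      (measurableSet_le hι.measurable (hι.measurable.comp (hm g)))
  · intro x hx
    have hne : (MulAction.orbit Γ x ∩ D).Nonempty := ⟨x, MulAction.mem_orbit_self x, hx⟩
    obtain ⟨t, ht, hmin⟩ := Set.exists_min_image _ ι (hfin x hx) hne
    refine ⟨t, ⟨⟨ht.2, fun g hg => hmin _ ⟨?_, hg⟩⟩, ht.1⟩, ?_⟩
    · obtain ⟨a, ha⟩ := ht.1
      simp only at ha
      exact ⟨g * a, by simp only [mul_smul, ha]⟩
    · rintro t' ⟨⟨h1, h2⟩, h3⟩
      obtain ⟨a, ha⟩ := ht.1
      obtain ⟨b, hb⟩ := h3
      simp only at ha hb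
      have e1 : (a * b⁻¹) • t' = t := by
        rw [← hb, ← ha, smul_smul, inv_mul_cancel_right]
      have h4 : ι t' ≤ ι t := by
        have := h2 (a * b⁻¹) (by rw [e1]; exact ht.2)
        rwa [e1] at this
      have h5 : ι t ≤ ι t' := hmin t' ⟨⟨b, hb⟩, h1⟩
      exact hι.injective (le_antisymm h4 h5)

end Pool.Agent.Helper59.CR
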